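import Mathlib
import Pool.Agent.V11256.KI.Main

/-!
# Regular `k`-independent sets in `r`-regular graphs

For all integers `k ≥ 1` and `r ≥ max {3, k + 1}` the maximum regular `k`-independent set decision
problem restricted to `r`-regular graphs is `NP`-complete.

The reduction is from monotone not-all-equal satisfiability, through the maximum independent set
problem in cubic graphs: the vertices are replaced by small gadgets (found by computer, on 5, 7 and
11 vertices, for `k = 0, 1, 2`), leaves raise `k` and the degree by one, and copies of `K_{r+1}` or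
`K_{r,r}` minus an edge make the graph regular.
-/

namespace Pool.Agent.Results.MP_e81a45_lc.RegularKIndependent

open Pool.Agent.NPC Pool.Agent.V11256.ST Pool.Agent.V11256

/-- The decision problem: the input `x` is a graph `gr x.1`, given by the list of its vertices and
the list of its edges, and an integer `x.2 ≥ 1`. The graph is `r`-regular and has a set of at
least `x.2` vertices that is `k`-independent and all of whose vertices have the same degree. -/
def Problem (k r : ℕ) (x : (List ℕ × List (ℕ × ℕ)) × ℕ) : Prop :=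
  (1 ≤ x.2 ∧ ∀ v, ((gr x.1).neighborSet v).ncard = r) ∧
  ∃ S : Set {v : ℕ // v ∈ x.1.1}, (∀ v ∈ S, ((gr x.1).neighborSet v ∩ S).ncard ≤ k) ∧
    (∀ u ∈ S, ∀ v ∈ S, ((gr x.1).neighborSet u).ncard = ((gr x.1).neighborSet v).ncard) ∧
    x.2 ≤ S.ncard

/-- **Main theorem.** For all `k ≥ 1` and `r ≥ max {3, k + 1}` the restricted problem is
`NP`-complete; moreover every language in `NP` reduces to it in such a way that all graphs
produced are `r`-regular. -/
theorem result (k r : ℕ) (hk : 1 ≤ k) (hr : max 3 (k + 1) ≤ r) :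
    InNPP (Problem k r) ∧ NPHardP (Problem k r) ∧
    ∀ L : Set (List Bool), InNP L → ∃ f : List Bool → (List ℕ × List (ℕ × ℕ)) × ℕ,
      PolyTime (fun w => bits (f w)) ∧
      (∀ w, 1 ≤ (f w).2 ∧ ∀ v, ((gr (f w).1).neighborSet v).ncard = r) ∧
      ∀ w, w ∈ L ↔ ∃ S : Set {v : ℕ // v ∈ (f w).1.1},
        (∀ v ∈ S, ((gr (f w).1).neighborSet v ∩ S).ncard ≤ k) ∧
        (∀ u ∈ S, ∀ v ∈ S,
          ((gr (f w).1).neighborSet u).ncard = ((gr (f w).1).neighborSet v).ncard) ∧
        (f w).2 ≤ S.ncard := by
  have h3 : 3 ≤ r := le_trans (le_max_left _ _) hr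
  have hkr : k + 1 ≤ r := le_trans (le_max_right _ _) hr
  have hard := KI.hardPr_kind k r hk h3 hkr
  refine ⟨KI.inNP_kind k r, npHard_of_hardPr hard (fun _ h => ⟨fun g => ⟨h, g⟩, fun g => g.2⟩),
    fun L hL => ?_⟩
  obtain ⟨f, hf, hpr, hfL⟩ := hard L hL
  exact ⟨f, PC.toPolyTime hf, hpr, hfL⟩

end Pool.Agent.Results.MP_e81a45_lc.RegularKIndependent
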